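import Mathlib
import Pool.Agent.N405.FlowerPerm
import Pool.Agent.N405.DetParts

/-!
# The adjacency determinant and the flower decomposition of `R`-disjoint graphs

For every `R`-disjoint graph `G` with odd cycles `C₁, …, C_k`,
`det A(G) = det A(G[B(G)]) * ∏ det A(G[R(C_i)])`.
-/

namespace Pool.Agent.Results.MP_079569_co.FlowerDeterminant

open SimpleGraph Pool.Agent.N405.Flower

open Classical in
/-- If `G` is `R`-disjoint, the determinant of its adjacency matrix is the product of the
determinants of the adjacency matrices of the parts of its flower decomposition: the set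
`B(G)` of the vertices in no reach set, and the reach sets of the odd cycles of `G`. -/
theorem result {V : Type*} [Fintype V] (G : SimpleGraph V) (hG : RDisjoint G) :
    (G.adjMatrix ℝ).det =
      ((G.induce (rest G)).adjMatrix ℝ).det *
        ∏ E : {E : Set (Sym2 V) // IsOddCycle G E},
          ((G.induce (reach G E.1)).adjMatrix ℝ).det := by
  refine Pool.Agent.N405.det_parts G
    (fun E : {E : Set (Sym2 V) // IsOddCycle G E} => reach G E.1) (rest G) ?_ ?_ ?_
  · intro v
    constructor
    · intro h E
      exact h E.1 E.2
    · intro h E hE
      exact h ⟨E, hE⟩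
  · intro E E' hne
    exact hG.2.2 _ _ E.2 E'.2 (fun h => hne (Subtype.ext h))
  · intro σ hσ E v hv
    exact sigma_closed hG σ hσ E.2 hv

end Pool.Agent.Results.MP_079569_co.FlowerDeterminant
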